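import Pool.Agent.H10.ABY.Stmts

/-!
# ABY, module KNY: the choice of the known primes
-/

set_option autoImplicit false

namespace Pool.ABY

open Finset Pool.Agent.H98.ABCR Pool.SHA

namespace KNY71

/-- primes of a coordinate -/
def A (v : ℕ × ℕ) (s : Fin 3) : Finset ℕ := (coord v s).primeFactors

/-- sum of the logarithms of the elements -/
noncomputable def LK (K : Finset ℕ) : ℝ := ∑ q ∈ K, Real.log (q : ℝ)

lemma log_nonneg' (q : ℕ) : 0 ≤ Real.log (q : ℝ) := Real.log_natCast_nonneg q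

lemma LK_union (K T : Finset ℕ) : LK (K ∪ T) ≤ LK K + LK T := by
  unfold LK
  have h := Finset.sum_union_inter (s₁ := K) (s₂ := T) (f := fun q : ℕ => Real.log (q : ℝ))
  have h2 : 0 ≤ ∑ q ∈ K ∩ T, Real.log (q : ℝ) := Finset.sum_nonneg fun q _ => log_nonneg' q
  linarith

lemma LK_erase (K : Finset ℕ) (r : ℕ) (hr : r ∈ K) : LK (K.erase r) = LK K - Real.log (r : ℝ) := by
  unfold LK
  have := Finset.sum_erase_add K (fun q : ℕ => Real.log (q : ℝ)) hr
  linarith

lemma LK_log (K : Finset ℕ) (h : ∀ q ∈ K, q.Prime) :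
    Real.log ((∏ q ∈ K, q : ℕ) : ℝ) = LK K := by
  unfold LK
  push_cast
  exact Real.log_prod fun q hq => by
    have := (h q hq).pos
    positivity

lemma kl_mono (K K' : Finset ℕ) (n : ℕ) (h : K ⊆ K') : kl K n ≤ kl K' n := by
  unfold kl
  exact Finset.sum_le_sum_of_subset_of_nonneg h fun q _ _ =>
    mul_nonneg (Nat.cast_nonneg _) (log_nonneg' q)

lemma kl_full (K : Finset ℕ) (n : ℕ) (hK : n.primeFactors ⊆ K) : kl K n = Real.log n := by
  unfold kl
  rw [Real.log_nat_eq_sum_factorization, Finsupp.sum, Nat.support_factorization]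
  symm
  apply Finset.sum_subset hK
  intro q _ hq
  rw [← Nat.support_factorization, Finsupp.notMem_support_iff] at hq
  rw [hq]; simp

lemma sum3 (f : Fin 3 → ℝ) (i j k : Fin 3) (h1 : i ≠ j) (h2 : i ≠ k) (h3 : j ≠ k) :
    ∑ s, f s = f i + f j + f k := by
  rw [Fin.sum_univ_three]
  fin_cases i <;> fin_cases j <;> fin_cases k <;> simp_all <;> ring

lemma third (i j k s : Fin 3) (h1 : i ≠ j) (h2 : i ≠ k) (h3 : j ≠ k) (hs : s ≠ i) :
    s = j ∨ s = k := by
  fin_cases i <;> fin_cases j <;> fin_cases k <;> fin_cases s <;> simp_all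

lemma others (k : Fin 3) : ∃ i j : Fin 3, i ≠ j ∧ i ≠ k ∧ j ≠ k := by
  fin_cases k
  · exact ⟨1, 2, by decide, by decide, by decide⟩
  · exact ⟨0, 2, by decide, by decide, by decide⟩
  · exact ⟨0, 1, by decide, by decide, by decide⟩

lemma coord_pos (v : ℕ × ℕ) (hv : IsTri v) (s : Fin 3) : 0 < coord v s := by
  obtain ⟨ha, hb, _⟩ := hv
  fin_cases s
  · exact ha
  · exact hb
  · show 0 < v.1 + v.2
    omega

lemma cop (v : ℕ × ℕ) (hv : IsTri v) (s t : Fin 3) (h : s ≠ t) :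
    (coord v s).Coprime (coord v t) := by
  obtain ⟨ha, hb, hc⟩ := hv
  have e0 : coord v 0 = v.1 := rfl
  have e1 : coord v 1 = v.2 := rfl
  have e2 : coord v 2 = v.1 + v.2 := rfl
  have c02 : v.1.Coprime (v.1 + v.2) := by simpa using hc
  have c12 : v.2.Coprime (v.1 + v.2) := by simpa using hc.symm
  fin_cases s <;> fin_cases t
  · exact absurd rfl h
  · exact hc
  · exact c02
  · exact hc.symm
  · exact absurd rfl h
  · exact c12
  · exact c02.symm
  · exact c12.symm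
  · exact absurd rfl h

lemma disj (v : ℕ × ℕ) (hv : IsTri v) (s t : Fin 3) (h : s ≠ t) : Disjoint (A v s) (A v t) :=
  (cop v hv s t h).disjoint_primeFactors

lemma pf_nn (v : ℕ × ℕ) (hv : IsTri v) : (nn v).primeFactors = A v 0 ∪ A v 1 ∪ A v 2 := by
  obtain ⟨ha, hb, _⟩ := hv
  unfold nn
  rw [Nat.primeFactors_mul (by positivity) (by omega), Nat.primeFactors_mul ha.ne' hb.ne']
  rfl

lemma A_sub (v : ℕ × ℕ) (hv : IsTri v) (s : Fin 3) : A v s ⊆ (nn v).primeFactors := by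
  rw [pf_nn v hv]
  fin_cases s
  · exact fun q hq => by simp only [mem_union]; exact Or.inl (Or.inl hq)
  · exact fun q hq => by simp only [mem_union]; exact Or.inl (Or.inr hq)
  · exact fun q hq => by simp only [mem_union]; exact Or.inr hq

lemma log_rad (n : ℕ) : Real.log (rad n : ℝ) = LK n.primeFactors :=
  LK_log _ fun _ hq => Nat.prime_of_mem_primeFactors hq

lemma log_RR (v : ℕ × ℕ) (hv : IsTri v) :
    Real.log (RR v : ℝ) = LK (A v 0) + LK (A v 1) + LK (A v 2) := by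
  unfold RR
  rw [log_rad, pf_nn v hv]
  unfold LK
  rw [Finset.sum_union, Finset.sum_union (disj v hv 0 1 (by decide))]
  rw [Finset.disjoint_union_left]
  exact ⟨disj v hv 0 2 (by decide), disj v hv 1 2 (by decide)⟩

lemma sum_log (v : ℕ × ℕ) (hv : IsTri v) :
    3 * hh v - Real.log 2 ≤ ∑ s : Fin 3, Real.log (coord v s : ℝ) +
      (hh v - Real.log ((min v.1 v.2 : ℕ) : ℝ)) := by
  obtain ⟨ha, hb, _⟩ := hv
  have ha' : (0 : ℝ) < (v.1 : ℝ) := by exact_mod_cast ha
  have hb' : (0 : ℝ) < (v.2 : ℝ) := by exact_mod_cast hb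
  rw [Fin.sum_univ_three]
  have e0 : coord v 0 = v.1 := rfl
  have e1 : coord v 1 = v.2 := rfl
  have e2 : coord v 2 = v.1 + v.2 := rfl
  rw [e0, e1, e2]
  have hhd : hh v = Real.log ((v.1 + v.2 : ℕ) : ℝ) := rfl
  rw [← hhd]
  rcases le_total v.1 v.2 with h | h
  · rw [min_eq_left h]
    have h1 : hh v ≤ Real.log 2 + Real.log v.2 := by
      rw [hhd, ← Real.log_mul (by norm_num) hb'.ne']
      apply Real.log_le_log
      · push_cast; positivity
      · push_cast
        have : (v.1 : ℝ) ≤ v.2 := by exact_mod_cast h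
        linarith
    linarith
  · rw [min_eq_right h]
    have h1 : hh v ≤ Real.log 2 + Real.log v.1 := by
      rw [hhd, ← Real.log_mul (by norm_num) ha'.ne']
      apply Real.log_le_log
      · push_cast; positivity
      · push_cast
        have : (v.2 : ℝ) ≤ v.1 := by exact_mod_cast h
        linarith
    linarith

lemma log_coord_le (v : ℕ × ℕ) (hv : IsTri v) (s : Fin 3) :
    Real.log (coord v s : ℝ) ≤ hh v := by
  have h0 := coord_pos v hv s
  unfold hh
  apply Real.log_le_log (by exact_mod_cast h0)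
  have : coord v s ≤ v.1 + v.2 := by
    fin_cases s
    · show v.1 ≤ v.1 + v.2
      omega
    · show v.2 ≤ v.1 + v.2
      omega
    · exact le_refl _
  exact_mod_cast this

lemma log_le_of (a b : ℕ) (ha : 0 < a) (hb : 0 < b) (h : b ≤ a) :
    Real.log ((a + b : ℕ) : ℝ) - Real.log 2 ≤ Real.log (a : ℝ) := by
  have ha' : (0 : ℝ) < (a : ℝ) := by exact_mod_cast ha
  have hb' : (0 : ℝ) < (b : ℝ) := by exact_mod_cast hb
  have h1 : Real.log ((a + b : ℕ) : ℝ) ≤ Real.log 2 + Real.log a := by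
    rw [← Real.log_mul (by norm_num) ha'.ne']
    apply Real.log_le_log
    · push_cast; positivity
    · push_cast
      have : (b : ℝ) ≤ a := by exact_mod_cast h
      linarith
  linarith

lemma small_coord (v : ℕ × ℕ) (hv : IsTri v) (i : Fin 3)
    (h : Real.log (coord v i : ℝ) < hh v - Real.log 2) :
    Real.log ((min v.1 v.2 : ℕ) : ℝ) = Real.log (coord v i : ℝ) ∧
      ∀ s, s ≠ i → hh v - Real.log 2 ≤ Real.log (coord v s : ℝ) := by
  obtain ⟨ha, hb, _⟩ := hv
  have e0 : coord v 0 = v.1 := rfl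
  have e1 : coord v 1 = v.2 := rfl
  have e2 : coord v 2 = v.1 + v.2 := rfl
  have hhd : hh v = Real.log ((v.1 + v.2 : ℕ) : ℝ) := rfl
  have hl2 : 0 ≤ Real.log 2 := Real.log_nonneg (by norm_num)
  have h2 : hh v - Real.log 2 ≤ Real.log (coord v 2 : ℝ) := by
    rw [e2, hhd]; linarith
  have hi : i = 0 ∨ i = 1 ∨ i = 2 := by
    fin_cases i <;> simp
  rcases hi with rfl | rfl | rfl
  · rw [e0] at h ⊢
    have hlt : v.1 < v.2 := by
      by_contra hc
      have := log_le_of v.1 v.2 ha hb (by omega)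
      rw [hhd] at h
      linarith
    refine ⟨by rw [min_eq_left hlt.le], ?_⟩
    intro s hs
    have : s = 1 ∨ s = 2 := by
      fin_cases s <;> simp_all
    rcases this with rfl | rfl
    · rw [e1, hhd, Nat.add_comm]
      exact log_le_of v.2 v.1 hb ha hlt.le
    · exact h2
  · rw [e1] at h ⊢
    have hlt : v.2 < v.1 := by
      by_contra hc
      have := log_le_of v.2 v.1 hb ha (by omega)
      rw [Nat.add_comm] at this
      rw [hhd] at h
      linarith
    refine ⟨by rw [min_eq_right hlt.le], ?_⟩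
    intro s hs
    have : s = 0 ∨ s = 2 := by
      fin_cases s <;> simp_all
    rcases this with rfl | rfl
    · rw [e0, hhd]
      exact log_le_of v.1 v.2 ha hb hlt.le
    · exact h2
  · exfalso
    linarith

/-- the greedy choice in one coordinate -/
lemma greedy (hKNA : S_KNA) (v : ℕ × ℕ) (s : Fin 3) (t : ℝ) (ht0 : 0 ≤ t) (ht1 : t ≤ 1)
    (P : ℕ) (hPm : ∀ q ∈ A v s, Real.log (q : ℝ) ≤ Real.log (P : ℝ)) :
    ∃ T ⊆ A v s, t * Real.log (coord v s : ℝ) ≤ kl T (coord v s) ∧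
      LK T ≤ t * LK (A v s) + Real.log (P : ℝ) := by
  obtain ⟨T, hT, h1, h2⟩ := hKNA (A v s)
    (fun q => ((coord v s).factorization q : ℝ) * Real.log (q : ℝ)) (fun q => Real.log (q : ℝ)) t
    (Real.log (P : ℝ)) (fun q _ => mul_nonneg (Nat.cast_nonneg _) (log_nonneg' q))
    (fun q hq => Real.log_pos (by
      have := (Nat.prime_of_mem_primeFactors hq).one_lt
      exact_mod_cast this)) ht0 ht1 (log_nonneg' P) hPm
  refine ⟨T, hT, ?_, h2⟩
  have h3 : ∑ q ∈ A v s, ((coord v s).factorization q : ℝ) * Real.log (q : ℝ) =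
      Real.log (coord v s : ℝ) := kl_full (A v s) (coord v s) (subset_refl _)
  rw [h3] at h1
  exact h1

/-- the largest prime of a coordinate -/
lemma top (v : ℕ × ℕ) (s : Fin 3) (h : 0 < Real.log (coord v s : ℝ)) :
    ∃ P ∈ A v s, ∀ q ∈ A v s, Real.log (q : ℝ) ≤ Real.log (P : ℝ) := by
  apply Finset.exists_max_image
  rw [Finset.nonempty_iff_ne_empty]
  intro h0
  have h1 := kl_full (A v s) (coord v s) (subset_refl _)
  rw [h0] at h1
  unfold kl at h1
  rw [Finset.sum_empty] at h1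
  linarith

/-- the second alternative -/
lemma alt2 (v : ℕ × ℕ) (hv : IsTri v) (i j k : Fin 3) (hij : i ≠ j) (hik : i ≠ k) (hjk : j ≠ k)
    (T : Finset ℕ) (hT : T ⊆ A v i) (r : ℕ) (hr : r ∈ A v j) :
    ∃ K ⊆ (nn v).primeFactors, r ∈ (nn v).primeFactors ∧ r ∉ K ∧
      kl T (coord v i) ≤ kl K (coord v i) ∧ Free1 K i r v ∧
      3 * hh v - Real.log 2 - Real.log (coord v i : ℝ) + kl T (coord v i) ≤
        mass (insert r K) v ∧
      LK K ≤ LK T + LK (A v k) + (LK (A v j) - Real.log (r : ℝ)) := by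
  classical
  set K : Finset ℕ := (T ∪ A v k) ∪ (A v j).erase r with hK
  have hTK : T ⊆ K := fun q hq => by
    simp only [hK, mem_union]; exact Or.inl (Or.inl hq)
  have hkK : A v k ⊆ K := fun q hq => by
    simp only [hK, mem_union]; exact Or.inl (Or.inr hq)
  have hjK : ∀ q ∈ A v j, q ∈ K ∨ q = r := fun q hq => by
    by_cases h : q = r
    · exact Or.inr h
    · left
      simp only [hK, mem_union, mem_erase]
      exact Or.inr ⟨h, hq⟩
  have hjK' : A v j ⊆ insert r K := fun q hq => by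
    rw [mem_insert]
    rcases hjK q hq with h | h
    · exact Or.inr h
    · exact Or.inl h
  refine ⟨K, ?_, A_sub v hv j hr, ?_, kl_mono _ _ _ hTK, ⟨⟨j, hij.symm, ?_⟩, ?_⟩, ?_, ?_⟩
  · intro q hq
    simp only [hK, mem_union, mem_erase] at hq
    rcases hq with (h | h) | h
    · exact A_sub v hv i (hT h)
    · exact A_sub v hv k h
    · exact A_sub v hv j h.2
  · intro hq
    simp only [hK, mem_union, mem_erase] at hq
    rcases hq with (h | h) | h
    · exact (Finset.disjoint_left.1 (disj v hv i j hij)) (hT h) hr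
    · exact (Finset.disjoint_left.1 (disj v hv j k hjk)) hr h
    · exact h.1 rfl
  · exact Nat.dvd_of_mem_primeFactors hr
  · intro s hs q hq
    rcases third i j k s hij hik hjk hs with rfl | rfl
    · exact hjK q hq
    · exact Or.inl (hkK hq)
  · have h1 := sum_log v hv
    rw [sum3 _ i j k hij hik hjk] at h1
    unfold mass
    rw [sum3 _ i j k hij hik hjk, kl_full (insert r K) (coord v j) hjK',
      kl_full (insert r K) (coord v k) (hkK.trans (Finset.subset_insert _ _))]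
    have h2 : kl T (coord v i) ≤ kl (insert r K) (coord v i) :=
      kl_mono _ _ _ (hTK.trans (Finset.subset_insert _ _))
    linarith
  · have h1 := LK_union (T ∪ A v k) ((A v j).erase r)
    have h2 := LK_union T (A v k)
    rw [LK_erase _ _ hr] at h1
    rw [← hK] at h1
    linarith

/-- the final product bound -/
lemma prod_le (K : Finset ℕ) (hK : ∀ q ∈ K, q.Prime) (ε X Y : ℝ) (hX : 3 ≤ X) (hY : 1 ≤ Y)
    (h : LK K ≤ ε * Real.log X + (Real.log X + Real.log Y) / 2) :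
    ((∏ q ∈ K, q : ℕ) : ℝ) ≤ X ^ ε * Real.sqrt (X * Y) := by
  have hX0 : 0 < X := by linarith
  have hY0 : 0 < Y := by linarith
  have hp : (0 : ℝ) < ((∏ q ∈ K, q : ℕ) : ℝ) := by
    have : 0 < ∏ q ∈ K, q := Finset.prod_pos fun q hq => (hK q hq).pos
    exact_mod_cast this
  have hs : 0 < Real.sqrt (X * Y) := Real.sqrt_pos.2 (by positivity)
  have hx : 0 < X ^ ε := Real.rpow_pos_of_pos hX0 _
  rw [← Real.log_le_log_iff hp (by positivity), LK_log K hK, Real.log_mul hx.ne' hs.ne',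
    Real.log_rpow hX0, Real.log_sqrt (by positivity), Real.log_mul hX0.ne' hY0.ne']
  exact h

end KNY71

open KNY71

/-- the numbers of the second alternative -/
lemma KNY71.fin2 (ε h lx kT kK m : ℝ) (hε : 0 < ε) (hε1 : ε ≤ 1) (hu : 1 ≤ ε ^ 2 / 200 * h)
    (hlx : lx ≤ h) (hx : ε ^ 2 / 200 * h ≤ ε / 4 * lx) (hT : ε / 4 * lx ≤ kT) (hK : kT ≤ kK)
    (hm : 3 * h - Real.log 2 - lx + kT ≤ m) :
    ε ^ 2 / 200 * h ≤ kK ∧ (2 + ε ^ 2 / 200) * h ≤ m := by
  have hl2 : Real.log 2 ≤ 0.7 := by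
    have := Real.log_two_lt_d9
    linarith
  have hh : 0 < h := by
    by_contra hc
    have h1 : ε ^ 2 / 200 * h ≤ 0 := mul_nonpos_of_nonneg_of_nonpos (by positivity) (by linarith)
    linarith
  refine ⟨by linarith, ?_⟩
  have h1 : 0 ≤ (1 - ε / 4) * (h - lx) := mul_nonneg (by linarith) (by linarith)
  have h2 : ε ^ 2 * h ≤ ε * h := by
    have : ε ^ 2 ≤ ε := by nlinarith
    exact mul_le_mul_of_nonneg_right this hh.le
  nlinarith

/-- the set type of the conclusion -/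
def KNY71.Goal (ε X Y : ℝ) (v : ℕ × ℕ) : Prop := ∃ K ⊆ (nn v).primeFactors,
      ((∏ q ∈ K, q : ℕ) : ℝ) ≤ X ^ ε * Real.sqrt (X * Y) ∧
      ((2 + ε ^ 2 / 200) * hh v ≤ mass K v ∨
        ∃ (i : Fin 3) (r : ℕ), r ∈ (nn v).primeFactors ∧ r ∉ K ∧
          ε ^ 2 / 200 * hh v ≤ kl K (coord v i) ∧ Free1 K i r v ∧
          (2 + ε ^ 2 / 200) * hh v ≤ mass (insert r K) v)

lemma KNY71.LK_nonneg (K : Finset ℕ) : 0 ≤ LK K := Finset.sum_nonneg fun q _ => log_nonneg' q

lemma KNY71.logs (X Y : ℝ) (v : ℕ × ℕ) (_hX : 3 ≤ X) (hv : IsTri v)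
    (hR : (RR v : ℝ) ≤ X) (i j k : Fin 3)
    (hij : i ≠ j) (hik : i ≠ k) (hjk : j ≠ k) (hk : (rad (coord v k) : ℝ) ≤ Y) :
    LK (A v i) + LK (A v j) + LK (A v k) ≤ Real.log X ∧ LK (A v k) ≤ Real.log Y := by
  constructor
  · have h1 := log_RR v hv
    have h2 := sum3 (fun s => LK (A v s)) i j k hij hik hjk
    rw [Fin.sum_univ_three] at h2
    have h3 : Real.log (RR v : ℝ) ≤ Real.log X := by
      apply Real.log_le_log _ hR
      have : 0 < RR v := by
        unfold RR rad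
        exact Finset.prod_pos fun p hp => (Nat.prime_of_mem_primeFactors hp).pos
      exact_mod_cast this
    linarith
  · unfold A
    rw [← log_rad]
    apply Real.log_le_log _ hk
    have : 0 < rad (coord v k) := by
      unfold rad
      exact Finset.prod_pos fun p hp => (Nat.prime_of_mem_primeFactors hp).pos
    exact_mod_cast this

/-- case 1: the two coordinates other than `k` are large -/
lemma KNY71.case1 (hKNA : S_KNA) (ε : ℝ) (hε : 0 < ε) (hε1 : ε ≤ 1) (X Y : ℝ) (v : ℕ × ℕ)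
    (hX : 3 ≤ X) (hY : 1 ≤ Y) (hv : IsTri v) (hR : (RR v : ℝ) ≤ X) (i j k : Fin 3)
    (hij : i ≠ j) (hik : i ≠ k) (hjk : j ≠ k) (hk : (rad (coord v k) : ℝ) ≤ Y)
    (hu : 1 ≤ ε ^ 2 / 200 * hh v) (hi : ε / 20 * hh v ≤ Real.log (coord v i : ℝ))
    (hj : ε / 20 * hh v ≤ Real.log (coord v j : ℝ)) : KNY71.Goal ε X Y v := by
  have hh0 : 0 < hh v := by
    by_contra hc
    have h1 : ε ^ 2 / 200 * hh v ≤ 0 := mul_nonpos_of_nonneg_of_nonpos (by positivity) (by linarith)
    linarith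
  have hpi : 0 < Real.log (coord v i : ℝ) := lt_of_lt_of_le (by positivity) hi
  have hpj : 0 < Real.log (coord v j : ℝ) := lt_of_lt_of_le (by positivity) hj
  obtain ⟨Pi, hPi, hPi'⟩ := top v i hpi
  obtain ⟨Pj, hPj, hPj'⟩ := top v j hpj
  obtain ⟨Ti, hTi, hTi1, hTi2⟩ := greedy hKNA v i (ε / 4) (by linarith) (by linarith) Pi hPi'
  obtain ⟨Tj, hTj, hTj1, hTj2⟩ := greedy hKNA v j (ε / 4) (by linarith) (by linarith) Pj hPj'
  obtain ⟨K1, h1s, h1r, h1n, h1k, h1f, h1m, h1l⟩ := alt2 v hv i j k hij hik hjk Ti hTi Pj hPj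
  obtain ⟨K2, h2s, h2r, h2n, h2k, h2f, h2m, h2l⟩ := alt2 v hv j i k hij.symm hjk hik Tj hTj Pi hPi
  obtain ⟨hLX, hLY⟩ := KNY71.logs X Y v hX hv hR i j k hij hik hjk hk
  have ni := KNY71.LK_nonneg (A v i)
  have nj := KNY71.LK_nonneg (A v j)
  have nk := KNY71.LK_nonneg (A v k)
  have hlX : 0 ≤ Real.log X := Real.log_nonneg (by linarith)
  have hsum : LK K1 + LK K2 ≤ ε / 4 * Real.log X + Real.log X + Real.log Y := by
    have h5 : ε / 4 * (LK (A v i) + LK (A v j)) ≤ ε / 4 * Real.log X :=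
      mul_le_mul_of_nonneg_left (by linarith) (by linarith)
    linarith
  have hεX : 0 ≤ ε * Real.log X := mul_nonneg hε.le hlX
  by_cases hc : LK K1 ≤ ε * Real.log X + (Real.log X + Real.log Y) / 2
  · refine ⟨K1, h1s, prod_le K1 (fun q hq => Nat.prime_of_mem_primeFactors (h1s hq)) ε X Y hX hY
      hc, Or.inr ⟨i, Pj, h1r, h1n, ?_⟩⟩
    have h6 := KNY71.fin2 ε (hh v) (Real.log (coord v i : ℝ)) (kl Ti (coord v i))
      (kl K1 (coord v i)) (mass (insert Pj K1) v) hε hε1 hu (log_coord_le v hv i)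
      (by nlinarith) hTi1 h1k h1m
    exact ⟨h6.1, h1f, h6.2⟩
  · refine ⟨K2, h2s, prod_le K2 (fun q hq => Nat.prime_of_mem_primeFactors (h2s hq)) ε X Y hX hY
      (by linarith), Or.inr ⟨j, Pi, h2r, h2n, ?_⟩⟩
    have h6 := KNY71.fin2 ε (hh v) (Real.log (coord v j : ℝ)) (kl Tj (coord v j))
      (kl K2 (coord v j)) (mass (insert Pi K2) v) hε hε1 hu (log_coord_le v hv j)
      (by nlinarith) hTj1 h2k h2m
    exact ⟨h6.1, h2f, h6.2⟩

/-- case 2: the coordinate `i` is small -/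
lemma KNY71.case2 (hKNA : S_KNA) (ε : ℝ) (hε : 0 < ε) (hε1 : ε ≤ 1) (X Y : ℝ) (v : ℕ × ℕ)
    (hX : 3 ≤ X) (hY : 1 ≤ Y) (hv : IsTri v) (hR : (RR v : ℝ) ≤ X) (i j k : Fin 3)
    (hij : i ≠ j) (hik : i ≠ k) (hjk : j ≠ k) (hk : (rad (coord v k) : ℝ) ≤ Y)
    (hu : 1 ≤ ε ^ 2 / 200 * hh v) (hi : Real.log (coord v i : ℝ) < ε / 20 * hh v) :
    KNY71.Goal ε X Y v := by
  classical
  have hl2 : Real.log 2 ≤ 0.7 := by
    have := Real.log_two_lt_d9
    linarith
  have hl0 : 0 ≤ Real.log 2 := Real.log_nonneg (by norm_num)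
  have hh0 : 0 < hh v := by
    by_contra hc
    have h1 : ε ^ 2 / 200 * hh v ≤ 0 := mul_nonpos_of_nonneg_of_nonpos (by positivity) (by linarith)
    linarith
  have hw : ε ^ 2 * hh v ≤ ε * hh v := by
    have : ε ^ 2 ≤ ε := by nlinarith
    exact mul_le_mul_of_nonneg_right this hh0.le
  have hw2 : ε * hh v ≤ hh v := by nlinarith
  have hw3 : 200 ≤ ε * hh v := by linarith
  obtain ⟨hmin, hbig⟩ := small_coord v hv i (by linarith)
  have hbj := hbig j hij.symm
  have hbk := hbig k hik.symm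
  obtain ⟨Pj, hPj, hPj'⟩ := top v j (by linarith)
  obtain ⟨Pk, hPk, hPk'⟩ := top v k (by linarith)
  obtain ⟨Tj, hTj, hTj1, hTj2⟩ := greedy hKNA v j (ε / 5) (by linarith) (by linarith) Pj hPj'
  obtain ⟨Tk, hTk, hTk1, hTk2⟩ := greedy hKNA v k (ε / 4) (by linarith) (by linarith) Pk hPk'
  obtain ⟨K2, h2s, h2r, h2n, h2k, h2f, h2m, h2l⟩ := alt2 v hv k j i hjk.symm hik.symm hij.symm
    Tk hTk Pj hPj
  obtain ⟨hLX, hLY⟩ := KNY71.logs X Y v hX hv hR i j k hij hik hjk hk
  have ni := KNY71.LK_nonneg (A v i)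
  have nj := KNY71.LK_nonneg (A v j)
  have nk := KNY71.LK_nonneg (A v k)
  have hlX : 0 ≤ Real.log X := Real.log_nonneg (by linarith)
  have hPkY : Real.log (Pk : ℝ) ≤ LK (A v k) :=
    Finset.single_le_sum (f := fun q : ℕ => Real.log (q : ℝ)) (fun q _ => log_nonneg' q) hPk
  have hlK1 := LK_union (A v k) Tj
  have hsum : LK (A v k ∪ Tj) + LK K2 ≤ 9 * ε / 20 * Real.log X + Real.log X + Real.log Y := by
    have h5 : ε / 5 * LK (A v j) ≤ ε / 5 * Real.log X :=
      mul_le_mul_of_nonneg_left (by linarith) (by linarith)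
    have h6 : ε / 4 * LK (A v k) ≤ ε / 4 * Real.log X :=
      mul_le_mul_of_nonneg_left (by linarith) (by linarith)
    linarith
  have hεX : 0 ≤ ε * Real.log X := mul_nonneg hε.le hlX
  have h1s : A v k ∪ Tj ⊆ (nn v).primeFactors :=
    Finset.union_subset (A_sub v hv k) (hTj.trans (A_sub v hv j))
  by_cases hc : LK (A v k ∪ Tj) ≤ ε * Real.log X + (Real.log X + Real.log Y) / 2
  · refine ⟨A v k ∪ Tj, h1s, prod_le _ (fun q hq => Nat.prime_of_mem_primeFactors (h1s hq)) ε X Y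
      hX hY hc, Or.inl ?_⟩
    unfold mass
    rw [sum3 _ i j k hij hik hjk, kl_full (A v k ∪ Tj) (coord v k) Finset.subset_union_left, hmin]
    have h7 : kl Tj (coord v j) ≤ kl (A v k ∪ Tj) (coord v j) :=
      kl_mono _ _ _ Finset.subset_union_right
    have h8 : 0 ≤ kl (A v k ∪ Tj) (coord v i) :=
      Finset.sum_nonneg fun q _ => mul_nonneg (Nat.cast_nonneg _) (log_nonneg' q)
    have h9 : ε / 5 * (hh v - Real.log 2) ≤ ε / 5 * Real.log (coord v j : ℝ) :=
      mul_le_mul_of_nonneg_left hbj (by linarith)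
    have h10 : ε * Real.log 2 ≤ 0.7 := by nlinarith
    linarith
  · refine ⟨K2, h2s, prod_le K2 (fun q hq => Nat.prime_of_mem_primeFactors (h2s hq)) ε X Y hX hY
      (by linarith), Or.inr ⟨k, Pj, h2r, h2n, ?_⟩⟩
    have h6 := KNY71.fin2 ε (hh v) (Real.log (coord v k : ℝ)) (kl Tk (coord v k))
      (kl K2 (coord v k)) (mass (insert Pj K2) v) hε hε1 hu (log_coord_le v hv k)
      (by
        have h9 : ε / 4 * (hh v - Real.log 2) ≤ ε / 4 * Real.log (coord v k : ℝ) :=
          mul_le_mul_of_nonneg_left hbk (by linarith)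
        have h10 : ε * Real.log 2 ≤ 0.7 := by nlinarith
        linarith) hTk1 h2k h2m
    exact ⟨h6.1, h2f, h6.2⟩

/-- the choice of the known primes -/
theorem kny_thm (hKNA : S_KNA) : S_KNY := by
  intro ε hε hε1
  refine ⟨ε ^ 2 / 200, by positivity, by nlinarith, ?_⟩
  intro X Y v hX hY hv hR hS hh1
  obtain ⟨k, hk⟩ := hS
  obtain ⟨i, j, hij, hik, hjk⟩ := others k
  have hδ : 0 < ε ^ 2 / 200 := by positivity
  have hu : 1 ≤ ε ^ 2 / 200 * hh v := by
    rw [div_le_iff₀ hδ] at hh1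
    linarith
  have key : KNY71.Goal ε X Y v := by
    rcases lt_or_ge (Real.log (coord v i : ℝ)) (ε / 20 * hh v) with h | h
    · exact KNY71.case2 hKNA ε hε hε1 X Y v hX hY hv hR i j k hij hik hjk hk hu h
    · rcases lt_or_ge (Real.log (coord v j : ℝ)) (ε / 20 * hh v) with h' | h'
      · exact KNY71.case2 hKNA ε hε hε1 X Y v hX hY hv hR j i k hij.symm hjk hik hk hu h'
      · exact KNY71.case1 hKNA ε hε hε1 X Y v hX hY hv hR i j k hij hik hjk hk hu h h'
  exact key

end Pool.ABY
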